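import Mathlib

/-!
# The gap between the strong vertex span and the strong edge span is at most one

For every finite connected graph `H` we show `σ_E(H) ≤ σ_V(H) ≤ σ_E(H) + 1`, and we give a graph on
six vertices with `σ_V(H) = 2` and `σ_E(H) = 1`.  Hence the supremum of `σ_V(H) - σ_E(H)` over all
finite connected graphs `H` is `1`.
-/

namespace Pool.Agent.Results.MP_5796a1_co.SpanGap

open SimpleGraph

section Defs

variable {A B V : Type*}

/-- Weak homomorphisms: adjacent vertices are mapped to equal or adjacent vertices. -/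
def IsWeakHom (G : SimpleGraph A) (H : SimpleGraph B) (f : A → B) : Prop :=
  ∀ u v, G.Adj u v → f u = f v ∨ H.Adj (f u) (f v)

/-- `f` is surjective on vertices and on edges. -/
def EdgeSurjective (G : SimpleGraph A) (H : SimpleGraph B) (f : A → B) : Prop :=
  Function.Surjective f ∧ ∀ u v, H.Adj u v → ∃ x y, G.Adj x y ∧ f x = u ∧ f y = v

/-- The minimum distance between `f u` and `g u`. -/
noncomputable def minDist (H : SimpleGraph B) (f g : A → B) : ℕ := ⨅ u, H.dist (f u) (g u)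

/-- The strong vertex span: the maximum of `minDist H f g` over all (nonempty) paths and all pairs
of surjective weak homomorphisms `f, g` from the path to `H`. -/
noncomputable def vertexSpan (H : SimpleGraph V) : ℕ :=
  sSup {d | ∃ (m : ℕ) (f g : Fin (m + 1) → V), IsWeakHom (pathGraph (m + 1)) H f ∧
    IsWeakHom (pathGraph (m + 1)) H g ∧ Function.Surjective f ∧ Function.Surjective g ∧
    minDist H f g = d}

/-- The strong edge span: the maximum of `minDist H f g` over all (nonempty) paths and all pairs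
of edge surjective weak homomorphisms `f, g` from the path to `H`. -/
noncomputable def edgeSpan (H : SimpleGraph V) : ℕ :=
  sSup {d | ∃ (m : ℕ) (f g : Fin (m + 1) → V), IsWeakHom (pathGraph (m + 1)) H f ∧
    IsWeakHom (pathGraph (m + 1)) H g ∧ EdgeSurjective (pathGraph (m + 1)) H f ∧
    EdgeSurjective (pathGraph (m + 1)) H g ∧ minDist H f g = d}

end Defs

/-! ### Covering all transitions of a component -/

section Cover

variable {S : Type*} {R : S → S → Prop} {a : S}

/-- There is a walk from `a` to `b` using all transitions in `X`. -/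
def Covers (R : S → S → Prop) (a : S) (X : Set (S × S)) (b : S) : Prop :=
  ∃ (L : ℕ) (w : ℕ → S), w 0 = a ∧ w L = b ∧ (∀ t < L, R (w t) (w (t + 1))) ∧
    ∀ p ∈ X, ∃ t < L, w t = p.1 ∧ w (t + 1) = p.2

theorem covers_step {X : Set (S × S)} {b c : S} (h : Covers R a X b) (hbc : R b c) :
    Covers R a (insert (b, c) X) c := by
  obtain ⟨L, w, h0, hL, hw, hX⟩ := h
  refine ⟨L + 1, fun t => if t ≤ L then w t else c, by simp [h0], by simp, ?_, ?_⟩
  · intro t ht
    rcases Nat.lt_succ_iff_lt_or_eq.1 ht with h | rfl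
    · have h1 : t ≤ L := h.le
      have h2 : t + 1 ≤ L := h
      simp only [h1, h2, if_true]
      exact hw t h
    · simp only [le_refl, if_true, show ¬ t + 1 ≤ t by omega, if_false]
      rw [hL]
      exact hbc
  · rintro p (rfl | hp)
    · refine ⟨L, Nat.lt_succ_self L, ?_, ?_⟩
      · simp [hL]
      · simp
    · obtain ⟨t, ht, h1, h2⟩ := hX p hp
      refine ⟨t, by omega, ?_, ?_⟩
      · simp only [show t ≤ L by omega, if_true]
        exact h1
      · simp only [show t + 1 ≤ L by omega, if_true]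
        exact h2

theorem covers_mono {X Y : Set (S × S)} {b : S} (h : Covers R a X b) (hY : Y ⊆ X) :
    Covers R a Y b := by
  obtain ⟨L, w, h0, hL, hw, hX⟩ := h
  exact ⟨L, w, h0, hL, hw, fun p hp => hX p (hY hp)⟩

theorem covers_reach {X : Set (S × S)} {b c : S} (h : Covers R a X b)
    (hbc : Relation.ReflTransGen R b c) : Covers R a X c := by
  induction hbc with
  | refl => exact h
  | tail _ hcd ih => exact covers_mono (covers_step ih hcd) (Set.subset_insert _ _)

theorem exists_cover [Finite S] (hsymm : ∀ x y, R x y → R y x) :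
    ∃ (L : ℕ) (w : ℕ → S), w 0 = a ∧ (∀ t < L, R (w t) (w (t + 1))) ∧
      ∀ p q, Relation.ReflTransGen R a p → R p q → ∃ t < L, w t = p ∧ w (t + 1) = q := by
  have key : ∀ X : Set (S × S), X.Finite →
      X ⊆ {p | Relation.ReflTransGen R a p.1 ∧ R p.1 p.2} →
        ∃ b, Relation.ReflTransGen R a b ∧ Covers R a X b := by
    intro X hX
    induction X, hX using Set.Finite.induction_on with
    | empty =>
      intro _
      exact ⟨a, Relation.ReflTransGen.refl, 0, fun _ => a, rfl, rfl, fun t ht => by omega,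
        fun p hp => by simp at hp⟩
    | @insert p X hp hX ih =>
      intro hsub
      obtain ⟨b, hb, hcov⟩ := ih ((Set.subset_insert _ _).trans hsub)
      obtain ⟨hp1, hp2⟩ := hsub (Set.mem_insert p X)
      have hba : Relation.ReflTransGen R b a := by
        have : Relation.ReflTransGen (Function.swap R) b a := hb.swap
        exact Relation.ReflTransGen.mono (fun x y hxy => hsymm _ _ hxy) _ _ this
      exact ⟨p.2, hp1.tail hp2, covers_step (covers_reach hcov (hba.trans hp1)) hp2⟩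
  obtain ⟨b, -, L, w, h0, -, hw, hX⟩ := key _ (Set.toFinite _) subset_rfl
  exact ⟨L, w, h0, hw, fun p q hp hpq => hX (p, q) ⟨hp, hpq⟩⟩

end Cover

/-! ### The state graph -/

section State

variable {V : Type*} (H : SimpleGraph V)

/-- The two walkers move from `a` to `b`, keeping distance at least `d`. -/
def Trans (d : ℕ) (a b : V × V) : Prop :=
  (a.1 = b.1 ∨ H.Adj a.1 b.1) ∧ (a.2 = b.2 ∨ H.Adj a.2 b.2) ∧ d ≤ H.dist a.1 a.2 ∧
    d ≤ H.dist b.1 b.2

variable {H}

theorem Trans.symm {d : ℕ} {a b : V × V} (h : Trans H d a b) : Trans H d b a :=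
  ⟨h.1.imp Eq.symm (fun h => h.symm), h.2.1.imp Eq.symm (fun h => h.symm), h.2.2.2, h.2.2.1⟩

theorem Trans.mono {d e : ℕ} (hde : e ≤ d) {a b : V × V} (h : Trans H d a b) : Trans H e a b :=
  ⟨h.1, h.2.1, hde.trans h.2.2.1, hde.trans h.2.2.2⟩

/-- Reachability in the state graph. -/
def Reach (H : SimpleGraph V) (d : ℕ) : V × V → V × V → Prop := Relation.ReflTransGen (Trans H d)

/-- There are surjective weak homomorphisms from a path keeping distance at least `d`. -/
def VertexFeasible (H : SimpleGraph V) (d : ℕ) : Prop :=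
  ∃ (m : ℕ) (f g : Fin (m + 1) → V), IsWeakHom (pathGraph (m + 1)) H f ∧
    IsWeakHom (pathGraph (m + 1)) H g ∧ Function.Surjective f ∧ Function.Surjective g ∧
    ∀ i, d ≤ H.dist (f i) (g i)

/-- There are edge surjective weak homomorphisms from a path keeping distance at least `d`. -/
def EdgeFeasible (H : SimpleGraph V) (d : ℕ) : Prop :=
  ∃ (m : ℕ) (f g : Fin (m + 1) → V), IsWeakHom (pathGraph (m + 1)) H f ∧
    IsWeakHom (pathGraph (m + 1)) H g ∧ EdgeSurjective (pathGraph (m + 1)) H f ∧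
    EdgeSurjective (pathGraph (m + 1)) H g ∧ ∀ i, d ≤ H.dist (f i) (g i)

theorem EdgeFeasible.vertexFeasible {d : ℕ} (h : EdgeFeasible H d) : VertexFeasible H d := by
  obtain ⟨m, f, g, h1, h2, h3, h4, h5⟩ := h
  exact ⟨m, f, g, h1, h2, h3.1, h4.1, h5⟩

theorem reach_of_path {d m : ℕ} {f g : Fin (m + 1) → V} (hf : IsWeakHom (pathGraph (m + 1)) H f)
    (hg : IsWeakHom (pathGraph (m + 1)) H g) (hd : ∀ i, d ≤ H.dist (f i) (g i)) :
    ∀ i : Fin (m + 1), Reach H d (f 0, g 0) (f i, g i) := by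
  have key : ∀ (k : ℕ) (hk : k < m + 1), Reach H d (f 0, g 0) (f ⟨k, hk⟩, g ⟨k, hk⟩) := by
    intro k
    induction k with
    | zero => intro _; exact Relation.ReflTransGen.refl
    | succ k ih =>
      intro hk
      have hadj : (pathGraph (m + 1)).Adj ⟨k, by omega⟩ ⟨k + 1, hk⟩ := by
        rw [pathGraph_adj]
        left
        rfl
      exact (ih (by omega)).tail ⟨hf _ _ hadj, hg _ _ hadj, hd _, hd _⟩
  intro i
  exact key i.1 i.2

/-- Sufficient condition for edge feasibility in terms of the state graph. -/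
theorem edgeFeasible_of_state [Finite V] {d : ℕ} {a : V × V} (ha : d ≤ H.dist a.1 a.2)
    (h1 : ∀ x, ∃ b, Reach H d a b ∧ b.1 = x ∧ d ≤ H.dist b.1 b.2)
    (h2 : ∀ x, ∃ b, Reach H d a b ∧ b.2 = x ∧ d ≤ H.dist b.1 b.2)
    (h3 : ∀ x y, H.Adj x y → ∃ b c, Reach H d a b ∧ Trans H d b c ∧ b.1 = x ∧ c.1 = y)
    (h4 : ∀ x y, H.Adj x y → ∃ b c, Reach H d a b ∧ Trans H d b c ∧ b.2 = x ∧ c.2 = y) :
    EdgeFeasible H d := by
  obtain ⟨L, w, h0, hw, hcov⟩ := exists_cover (S := V × V) (R := Trans H d) (a := a)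
    (fun _ _ h => h.symm)
  have hadj : ∀ u v : Fin (L + 1), (pathGraph (L + 1)).Adj u v → Trans H d (w u) (w v) := by
    intro u v huv
    rw [pathGraph_adj] at huv
    rcases huv with h | h
    · rw [← h]
      exact hw _ (by omega)
    · rw [← h]
      exact (hw _ (by omega)).symm
  have hdist : ∀ i : Fin (L + 1), d ≤ H.dist (w i).1 (w i).2 := by
    intro i
    rcases Nat.eq_zero_or_pos (i : ℕ) with h | h
    · rw [h, h0]
      exact ha
    · have h5 := (hw ((i : ℕ) - 1) (by omega)).2.2.2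
      rwa [Nat.sub_add_cancel h] at h5
  have hpath : ∀ t, t < L → ∀ (h1 : t < L + 1) (h2 : t + 1 < L + 1),
      (pathGraph (L + 1)).Adj ⟨t, h1⟩ ⟨t + 1, h2⟩ := by
    intro t _ h1 h2
    rw [pathGraph_adj]
    left
    rfl
  refine ⟨L, fun i => (w i).1, fun i => (w i).2, fun u v h => (hadj u v h).1,
    fun u v h => (hadj u v h).2.1, ⟨?_, ?_⟩, ⟨?_, ?_⟩, hdist⟩
  · intro x
    obtain ⟨b, hb, hx, hbd⟩ := h1 x
    obtain ⟨t, ht, ht1, -⟩ := hcov b b hb ⟨Or.inl rfl, Or.inl rfl, hbd, hbd⟩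
    exact ⟨⟨t, by omega⟩, by simp only [ht1, hx]⟩
  · intro x y hxy
    obtain ⟨b, c, hb, hbc, hx, hy⟩ := h3 x y hxy
    obtain ⟨t, ht, ht1, ht2⟩ := hcov b c hb hbc
    exact ⟨⟨t, by omega⟩, ⟨t + 1, by omega⟩, hpath t ht _ _, by simp only [ht1, hx],
      by simp only [ht2, hy]⟩
  · intro x
    obtain ⟨b, hb, hx, hbd⟩ := h2 x
    obtain ⟨t, ht, ht1, -⟩ := hcov b b hb ⟨Or.inl rfl, Or.inl rfl, hbd, hbd⟩
    exact ⟨⟨t, by omega⟩, by simp only [ht1, hx]⟩
  · intro x y hxy
    obtain ⟨b, c, hb, hbc, hx, hy⟩ := h4 x y hxy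
    obtain ⟨t, ht, ht1, ht2⟩ := hcov b c hb hbc
    exact ⟨⟨t, by omega⟩, ⟨t + 1, by omega⟩, hpath t ht _ _, by simp only [ht1, hx],
      by simp only [ht2, hy]⟩

theorem Reach.mono {d e : ℕ} (hde : e ≤ d) {a b : V × V} (h : Reach H d a b) : Reach H e a b :=
  Relation.ReflTransGen.mono (fun _ _ h' => Trans.mono hde h') _ _ h

/-- Detours: if distance `d` is feasible on vertices then `d - 1` is feasible on edges. -/
theorem VertexFeasible.edgeFeasible [Finite V] (hconn : H.Connected) {d : ℕ}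
    (h : VertexFeasible H d) : EdgeFeasible H (d - 1) := by
  obtain ⟨m, f, g, hf, hg, hfs, hgs, hd⟩ := h
  have hr := reach_of_path hf hg hd
  have hle : d - 1 ≤ d := Nat.sub_le _ _
  refine edgeFeasible_of_state (a := (f 0, g 0)) (hle.trans (hd 0)) ?_ ?_ ?_ ?_
  · intro x
    obtain ⟨i, rfl⟩ := hfs x
    exact ⟨_, (hr i).mono hle, rfl, hle.trans (hd i)⟩
  · intro x
    obtain ⟨i, rfl⟩ := hgs x
    exact ⟨_, (hr i).mono hle, rfl, hle.trans (hd i)⟩
  · intro x y hxy
    obtain ⟨i, rfl⟩ := hfs x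
    refine ⟨_, (y, g i), (hr i).mono hle, ⟨Or.inr hxy, Or.inl rfl, hle.trans (hd i), ?_⟩,
      rfl, rfl⟩
    have h1 := hconn.dist_triangle (u := f i) (v := y) (w := g i)
    have h2 : H.dist (f i) y = 1 := dist_eq_one_iff_adj.2 hxy
    have h3 := hd i
    show d - 1 ≤ H.dist y (g i)
    omega
  · intro x y hxy
    obtain ⟨i, rfl⟩ := hgs x
    refine ⟨_, (f i, y), (hr i).mono hle, ⟨Or.inl rfl, Or.inr hxy, hle.trans (hd i), ?_⟩,
      rfl, rfl⟩
    have h1 := hconn.dist_triangle (u := f i) (v := y) (w := g i)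
    have h2 : H.dist y (g i) = 1 := dist_eq_one_iff_adj.2 hxy.symm
    have h3 := hd i
    show d - 1 ≤ H.dist (f i) y
    omega

theorem reach_zero_left {a b : V} (p : H.Walk a b) (c : V) : Reach H 0 (a, c) (b, c) := by
  induction p with
  | nil => exact Relation.ReflTransGen.refl
  | @cons u v w h p ih =>
    have h1 : Trans H 0 (u, c) (v, c) := ⟨Or.inr h, Or.inl rfl, Nat.zero_le _, Nat.zero_le _⟩
    exact Relation.ReflTransGen.head h1 ih

theorem reach_zero_right {a b : V} (p : H.Walk a b) (c : V) : Reach H 0 (c, a) (c, b) := by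
  induction p with
  | nil => exact Relation.ReflTransGen.refl
  | @cons u v w h p ih =>
    have h1 : Trans H 0 (c, u) (c, v) := ⟨Or.inl rfl, Or.inr h, Nat.zero_le _, Nat.zero_le _⟩
    exact Relation.ReflTransGen.head h1 ih

theorem reach_zero (hconn : H.Connected) (a b : V × V) : Reach H 0 a b := by
  obtain ⟨p⟩ := hconn.preconnected a.1 b.1
  obtain ⟨q⟩ := hconn.preconnected a.2 b.2
  exact (reach_zero_left p a.2).trans (reach_zero_right q b.1)

theorem edgeFeasible_zero [Finite V] (hconn : H.Connected) : EdgeFeasible H 0 := by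
  obtain ⟨v⟩ := hconn.nonempty
  refine edgeFeasible_of_state (a := (v, v)) (Nat.zero_le _) ?_ ?_ ?_ ?_
  · exact fun x => ⟨(x, v), reach_zero hconn _ _, rfl, Nat.zero_le _⟩
  · exact fun x => ⟨(v, x), reach_zero hconn _ _, rfl, Nat.zero_le _⟩
  · exact fun x y h => ⟨(x, v), (y, v), reach_zero hconn _ _,
      ⟨Or.inr h, Or.inl rfl, Nat.zero_le _, Nat.zero_le _⟩, rfl, rfl⟩
  · exact fun x y h => ⟨(v, x), (v, y), reach_zero hconn _ _,
      ⟨Or.inl rfl, Or.inr h, Nat.zero_le _, Nat.zero_le _⟩, rfl, rfl⟩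

theorem exists_bound [Finite V] (H : SimpleGraph V) : ∃ B, ∀ x y, H.dist x y ≤ B := by
  obtain ⟨B, hB⟩ := (Set.toFinite (Set.range fun p : V × V => H.dist p.1 p.2)).bddAbove
  exact ⟨B, fun x y => hB ⟨(x, y), rfl⟩⟩

theorem le_minDist {m : ℕ} {f g : Fin (m + 1) → V} {d : ℕ} :
    d ≤ minDist H f g ↔ ∀ i, d ≤ H.dist (f i) (g i) := by
  unfold minDist
  exact le_ciInf_iff (OrderBot.bddBelow _)

theorem vertexFeasible_iff [Finite V] (hconn : H.Connected) {d : ℕ} :
    VertexFeasible H d ↔ d ≤ vertexSpan H := by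
  obtain ⟨B, hB⟩ := exists_bound H
  have hbdd : BddAbove {d | ∃ (m : ℕ) (f g : Fin (m + 1) → V), IsWeakHom (pathGraph (m + 1)) H f ∧
      IsWeakHom (pathGraph (m + 1)) H g ∧ Function.Surjective f ∧ Function.Surjective g ∧
      minDist H f g = d} := by
    refine ⟨B, ?_⟩
    rintro d ⟨m, f, g, -, -, -, -, rfl⟩
    exact (le_minDist.1 le_rfl 0).trans (hB _ _)
  constructor
  · rintro ⟨m, f, g, h1, h2, h3, h4, h5⟩
    exact (le_minDist.2 h5).trans (le_csSup hbdd ⟨m, f, g, h1, h2, h3, h4, rfl⟩)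
  · intro h
    obtain ⟨m, f, g, h1, h2, h3, h4, -⟩ := (edgeFeasible_zero hconn).vertexFeasible
    obtain ⟨m, f, g, h1, h2, h3, h4, h5⟩ :=
      (fun hne => Nat.sSup_mem hne hbdd) ⟨_, m, f, g, h1, h2, h3, h4, rfl⟩
    refine ⟨m, f, g, h1, h2, h3, h4, le_minDist.1 ?_⟩
    rw [h5]
    exact h

theorem edgeFeasible_iff [Finite V] (hconn : H.Connected) {d : ℕ} :
    EdgeFeasible H d ↔ d ≤ edgeSpan H := by
  obtain ⟨B, hB⟩ := exists_bound H
  have hbdd : BddAbove {d | ∃ (m : ℕ) (f g : Fin (m + 1) → V), IsWeakHom (pathGraph (m + 1)) H f ∧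
      IsWeakHom (pathGraph (m + 1)) H g ∧ EdgeSurjective (pathGraph (m + 1)) H f ∧
      EdgeSurjective (pathGraph (m + 1)) H g ∧ minDist H f g = d} := by
    refine ⟨B, ?_⟩
    rintro d ⟨m, f, g, -, -, -, -, rfl⟩
    exact (le_minDist.1 le_rfl 0).trans (hB _ _)
  constructor
  · rintro ⟨m, f, g, h1, h2, h3, h4, h5⟩
    exact (le_minDist.2 h5).trans (le_csSup hbdd ⟨m, f, g, h1, h2, h3, h4, rfl⟩)
  · intro h
    obtain ⟨m, f, g, h1, h2, h3, h4, -⟩ := edgeFeasible_zero hconn
    obtain ⟨m, f, g, h1, h2, h3, h4, h5⟩ :=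
      (fun hne => Nat.sSup_mem hne hbdd) ⟨_, m, f, g, h1, h2, h3, h4, rfl⟩
    refine ⟨m, f, g, h1, h2, h3, h4, le_minDist.1 ?_⟩
    rw [h5]
    exact h

theorem edgeSpan_le [Finite V] (hconn : H.Connected) : edgeSpan H ≤ vertexSpan H :=
  (vertexFeasible_iff hconn).1 ((edgeFeasible_iff hconn).2 le_rfl).vertexFeasible

theorem vertexSpan_le [Finite V] (hconn : H.Connected) : vertexSpan H ≤ edgeSpan H + 1 := by
  have := (edgeFeasible_iff hconn).1
    (((vertexFeasible_iff hconn).2 le_rfl).edgeFeasible hconn)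
  omega

end State

/-! ### The example -/

/-- The adjacency of the example as a Boolean matrix. -/
def exAdj (a b : Fin 6) : Bool :=
  (a, b) ∈ [((0 : Fin 6), (1 : Fin 6)), (0, 3), (0, 4), (0, 5), (1, 2), (1, 3), (1, 4), (2, 3),
    (2, 4), (1, 0), (3, 0), (4, 0), (5, 0), (2, 1), (3, 1), (4, 1), (3, 2), (4, 2)]

/-- A graph with six vertices and nine edges. -/
def ex : SimpleGraph (Fin 6) where
  Adj a b := exAdj a b = true
  symm := ⟨by decide⟩
  loopless := ⟨by decide⟩

instance : DecidableRel ex.Adj := fun a b => inferInstanceAs (Decidable (exAdj a b = true))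

theorem ex_connected : ex.Connected := by
  have h : ∀ v : Fin 6, ex.Reachable 0 v := by
    have h1 : ∀ v : Fin 6, v = 0 ∨ ex.Adj 0 v ∨ ∃ w, ex.Adj 0 w ∧ ex.Adj w v := by decide
    intro v
    rcases h1 v with rfl | h | ⟨w, h, h'⟩
    · exact Reachable.refl _
    · exact h.reachable
    · exact h.reachable.trans h'.reachable
  exact Connected.mk fun u v => (h u).symm.trans (h v)

theorem two_le_dist {a b : Fin 6} : 2 ≤ ex.dist a b ↔ a ≠ b ∧ ¬ ex.Adj a b := by
  constructor
  · intro h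
    refine ⟨?_, ?_⟩
    · rintro rfl
      rw [dist_self] at h
      omega
    · intro h'
      rw [dist_eq_one_iff_adj.2 h'] at h
      omega
  · rintro ⟨h1, h2⟩
    have h3 : ex.dist a b ≠ 0 := by
      rw [Ne, ex_connected.dist_eq_zero_iff]
      exact h1
    have h4 : ex.dist a b ≠ 1 := by
      rw [Ne, dist_eq_one_iff_adj]
      exact h2
    omega

/-- The walk of the first walker. -/
def walk1 : Fin 7 → Fin 6 := ![1, 2, 3, 0, 4, 0, 5]
/-- The walk of the second walker. -/
def walk2 : Fin 7 → Fin 6 := ![5, 0, 4, 2, 3, 2, 1]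

theorem ex_vertexFeasible : VertexFeasible ex 2 := by
  have hhom : ∀ w : Fin 7 → Fin 6,
      (∀ u v : Fin 7, u.val + 1 = v.val → w u = w v ∨ ex.Adj (w u) (w v)) →
      IsWeakHom (pathGraph (6 + 1)) ex w := by
    intro w hw u v huv
    rw [pathGraph_adj] at huv
    rcases huv with h | h
    · exact hw u v h
    · exact (hw v u h).imp Eq.symm (fun h => h.symm)
  refine ⟨6, walk1, walk2, hhom _ (by decide), hhom _ (by decide), by decide, by decide, ?_⟩
  intro i
  rw [two_le_dist]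
  revert i
  decide

theorem ex_not_edgeFeasible : ¬ EdgeFeasible ex 2 := by
  rintro ⟨m, f, g, hf, hg, hfs, -, hd⟩
  obtain ⟨x, y, hxy, hx, hy⟩ := hfs.2 0 1 (by decide)
  have key : ∀ p q : Fin 6, (0 ≠ p ∧ ¬ ex.Adj 0 p) → (1 ≠ q ∧ ¬ ex.Adj 1 q) →
      ¬ (p = q ∨ ex.Adj p q) := by decide
  refine key (g x) (g y) ?_ ?_ (hg x y hxy)
  · rw [← two_le_dist, ← hx]
    exact hd x
  · rw [← two_le_dist, ← hy]
    exact hd y

theorem ex_spans : vertexSpan ex = 2 ∧ edgeSpan ex = 1 := by
  have h1 := (vertexFeasible_iff ex_connected).1 ex_vertexFeasible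
  have h2 : ¬ 2 ≤ edgeSpan ex := fun h => ex_not_edgeFeasible ((edgeFeasible_iff ex_connected).2 h)
  have h3 := vertexSpan_le ex_connected
  omega

/-- **The largest possible value of `σ_V(H) - σ_E(H)` is `1`.** -/
theorem result :
    (∀ (V : Type) (_ : Finite V) (H : SimpleGraph V), H.Connected →
      edgeSpan H ≤ vertexSpan H ∧ vertexSpan H ≤ edgeSpan H + 1) ∧
    (∃ H : SimpleGraph (Fin 6), H.Connected ∧ vertexSpan H = 2 ∧ edgeSpan H = 1) ∧
    (⨆ (n : ℕ) (H : SimpleGraph (Fin n)) (_ : H.Connected),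
      ((vertexSpan H - edgeSpan H : ℕ) : ℕ∞)) = 1 := by
  refine ⟨fun V _ H h => ⟨edgeSpan_le h, vertexSpan_le h⟩,
    ⟨ex, ex_connected, ex_spans.1, ex_spans.2⟩, le_antisymm ?_ ?_⟩
  · refine iSup_le fun n => iSup_le fun H => iSup_le fun h => ?_
    have := vertexSpan_le h
    have h2 : vertexSpan H - edgeSpan H ≤ 1 := by omega
    exact_mod_cast h2
  · refine le_iSup_of_le 6 (le_iSup_of_le ex (le_iSup_of_le ex_connected ?_))
    rw [ex_spans.1, ex_spans.2]
    norm_num

end Pool.Agent.Results.MP_5796a1_co.SpanGap
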